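import Pool.Agent.H10.ALG.Targets

/-!
# Row COE of the board `alg_modules`: the finite theorem
-/

set_option autoImplicit false

namespace Pool.Agent.H21.ALG

open Pool.Agent.H10.ALG

section Mu

variable {X B : Type} [Fintype X] [DecidableEq X] [Fintype B] [DecidableEq B] [Nonempty B]

theorem muJ_nonneg (hMUP : T_MUP) (J : Finset X) (S : Cf X B) : 0 ≤ muJ J S := by
  unfold muJ
  refine Finset.prod_nonneg fun x _ => ?_
  split_ifs
  · exact (hMUP B).2.1 _
  · exact (hMUP B).1 _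

theorem muJ_ne (hMUP : T_MUP) (J : Finset X) (S : Cf X B) (h : muJ J S ≠ 0) :
    (∀ x ∈ J, ((S x).1 ∩ (S x).2).card = 1) ∧ ∀ x ∉ J, Disjoint (S x).1 (S x).2 := by
  unfold muJ at h
  rw [Finset.prod_ne_zero_iff] at h
  refine ⟨fun x hx => ?_, fun x hx => ?_⟩
  · have h1 := h x (Finset.mem_univ x)
    rw [if_pos hx] at h1
    exact (hMUP B).2.2.2.2.2 _ h1
  · have h1 := h x (Finset.mem_univ x)
    rw [if_neg hx] at h1
    exact (hMUP B).2.2.2.2.1 _ h1

theorem muJ_sum (hMUP : T_MUP) (J : Finset X) : ∑ S : Cf X B, muJ J S = 1 := by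
  unfold muJ
  have h := Finset.prod_univ_sum (fun _ : X => (Finset.univ : Finset (Blk B)))
    (fun x p => if x ∈ J then mu1 p else mu0 p)
  rw [Fintype.piFinset_univ] at h
  rw [← h]
  refine Finset.prod_eq_one fun x _ => ?_
  split_ifs
  · exact (hMUP B).2.2.2.1
  · exact (hMUP B).2.2.1

theorem simp_prod (hSMP : T_SMP) (N : ℝ) (J : Finset X) (f : X → Cf X B → ℝ)
    (hf : ∀ x, Simp N (f x)) : Simp (N ^ J.card) (fun S => ∏ x ∈ J, f x S) := by
  obtain ⟨h1, -, -, -, h5, -⟩ := hSMP X B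
  induction J using Finset.induction_on with
  | empty => simpa using h1
  | insert a J ha ih =>
    rw [Finset.card_insert_of_notMem ha, pow_succ']
    simp only [Finset.prod_insert ha]
    exact h5 _ _ _ _ (hf a) ih

/-- The pointwise bound. -/
theorem pointwise {W : Type} [Fintype W] (p : X → W → Cf X B → ℝ) (K m : ℕ) (hm : m = 12 * K)
    (hK : 1 ≤ K) (hAMN : T_AMN) (hMUP : T_MUP) (hp : ∀ x w S, 0 ≤ p x w S ∧ p x w S ≤ 1)
    (hcon : ¬ ∃ S : Cf X B, (∀ x, Disjoint (S x).1 (S x).2 ∨ ((S x).1 ∩ (S x).2).card = 1) ∧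
      ∀ x, (Disjoint (S x).1 (S x).2 → ∀ w, p x w S < 2 / 3) ∧
        (¬ Disjoint (S x).1 (S x).2 → ∃ w, 1 / 3 < p x w S))
    (J : Finset X) (u : X → W) (S : Cf X B) :
    muJ J S * (∏ x ∈ J, amp m (p x (u x) S)) ≤ muJ J S * (1 / 2) ^ K +
      2 * ∑ x ∈ Jᶜ, ∑ w, muJ J S * ((∏ x ∈ J, amp m (p x (u x) S)) * amp m (p x w S)) := by
  obtain ⟨hA1, hA2, hA3⟩ := hAMN
  have hamp : ∀ x w, 0 ≤ amp m (p x w S) ∧ amp m (p x w S) ≤ 1 := fun x w =>
    hA1 m _ (hp x w S).1 (hp x w S).2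
  have hF0 : 0 ≤ ∏ x ∈ J, amp m (p x (u x) S) := Finset.prod_nonneg fun x _ => (hamp x _).1
  have hmu := muJ_nonneg hMUP J S
  have hterm : ∀ x w, 0 ≤ muJ J S * ((∏ x ∈ J, amp m (p x (u x) S)) * amp m (p x w S)) :=
    fun x w => mul_nonneg hmu (mul_nonneg hF0 (hamp x w).1)
  have hsum : 0 ≤ ∑ x ∈ Jᶜ, ∑ w, muJ J S *
      ((∏ x ∈ J, amp m (p x (u x) S)) * amp m (p x w S)) :=
    Finset.sum_nonneg fun x _ => Finset.sum_nonneg fun w _ => hterm x w
  rcases eq_or_ne (muJ J S) 0 with h0 | h0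
  · rw [h0]
    simp
  rcases le_or_gt (∏ x ∈ J, amp m (p x (u x) S)) ((1 / 2) ^ K) with h1 | h1
  · have h2 := mul_le_mul_of_nonneg_left h1 hmu
    linarith
  obtain ⟨hJ1, hJ2⟩ := muJ_ne hMUP J S h0
  have hnd : ∀ x ∈ J, ¬ Disjoint (S x).1 (S x).2 := by
    intro x hx hd
    have h2 := hJ1 x hx
    rw [Finset.disjoint_iff_inter_eq_empty.1 hd] at h2
    simp at h2
  have hbig : ∀ x ∈ J, 1 / 3 < p x (u x) S := by
    intro x hx
    by_contra h2
    push Not at h2
    have h3 := hA2 K _ (hp x (u x) S).1 h2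
    rw [← hm] at h3
    have h4 : ∏ x ∈ J, amp m (p x (u x) S) ≤ amp m (p x (u x) S) := by
      rw [← Finset.mul_prod_erase J _ hx]
      exact mul_le_of_le_one_right (hamp x _).1
        (Finset.prod_le_one (fun y _ => (hamp y _).1) (fun y _ => (hamp y _).2))
    linarith
  have hex : ∃ x ∉ J, ∃ w, 2 / 3 ≤ p x w S := by
    by_contra h2
    push Not at h2
    apply hcon
    refine ⟨S, fun x => ?_, fun x => ⟨fun hd w => ?_, fun hd => ?_⟩⟩
    · by_cases hx : x ∈ J
      · exact Or.inr (hJ1 x hx)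
      · exact Or.inl (hJ2 x hx)
    · by_cases hx : x ∈ J
      · exact absurd hd (hnd x hx)
      · exact h2 x hx w
    · by_cases hx : x ∈ J
      · exact ⟨u x, hbig x hx⟩
      · exact absurd (hJ2 x hx) hd
  obtain ⟨x, hx, w, hw⟩ := hex
  have h2 : 1 / 2 ≤ amp m (p x w S) := by
    rw [hm]
    exact hA3 K _ hK hw (hp x w S).2
  have h3 : muJ J S * ((∏ x ∈ J, amp m (p x (u x) S)) * amp m (p x w S)) ≤
      ∑ x ∈ Jᶜ, ∑ w, muJ J S * ((∏ x ∈ J, amp m (p x (u x) S)) * amp m (p x w S)) := by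
    refine le_trans ?_ (Finset.single_le_sum (f := fun x => ∑ w, muJ J S *
      ((∏ x ∈ J, amp m (p x (u x) S)) * amp m (p x w S)))
      (fun y _ => Finset.sum_nonneg fun w _ => hterm y w) (Finset.mem_compl.2 hx))
    exact Finset.single_le_sum (f := fun w => muJ J S *
      ((∏ x ∈ J, amp m (p x (u x) S)) * amp m (p x w S)))
      (fun w _ => hterm x w) (Finset.mem_univ w)
  have h4 : muJ J S * (∏ x ∈ J, amp m (p x (u x) S)) ≤
      2 * (muJ J S * ((∏ x ∈ J, amp m (p x (u x) S)) * amp m (p x w S))) := by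
    have h5 : 0 ≤ muJ J S * (∏ x ∈ J, amp m (p x (u x) S)) := mul_nonneg hmu hF0
    have h6 := mul_le_mul_of_nonneg_left h2 h5
    nlinarith [h6]
  have h5 : 0 ≤ muJ J S * (1 / 2) ^ K := mul_nonneg hmu (by positivity)
  linarith

end Mu

theorem pf_COE (hSMP : T_SMP) (hCRX : T_CRX) (hAMN : T_AMN) (hAMS : T_AMS) (hMUP : T_MUP) :
    T_COE := by
  intro X B W _ _ _ _ _ _ _ p H L hp hs hL hB
  by_contra hcon
  obtain ⟨M, hM⟩ : ∃ M, M = Fintype.card X := ⟨_, rfl⟩
  rw [← hM] at hL hB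
  obtain ⟨K, hK⟩ : ∃ K, K = M * L + 1 := ⟨_, rfl⟩
  obtain ⟨m, hm⟩ : ∃ m, m = 12 * K := ⟨_, rfl⟩
  obtain ⟨β, hβ⟩ : ∃ β : ℝ, β = (1 / 2) ^ L := ⟨_, rfl⟩
  obtain ⟨T, hT⟩ : ∃ T, T = (1 + H) * m * M + M * L := ⟨_, rfl⟩
  have hTB : 440 * (T + 1) ≤ Fintype.card B := by
    rw [hT, hm, hK]
    exact hB
  have hβ0 : 0 < β := by rw [hβ]; positivity
  have hβ1 : β ≤ 1 := by
    rw [hβ]
    exact pow_le_one₀ (by norm_num) (by norm_num)
  have hβL : 800 * (M : ℝ) * Fintype.card W * β ≤ 1 := by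
    have h1 : (800 * (M : ℝ) * Fintype.card W) ≤ 2 ^ L := by exact_mod_cast hL
    calc 800 * (M : ℝ) * Fintype.card W * β ≤ 2 ^ L * β :=
          mul_le_mul_of_nonneg_right h1 hβ0.le
      _ = 1 := by rw [hβ, ← mul_pow]; norm_num
  have hKβ : ((1 : ℝ) / 2) ^ K = β ^ M / 2 := by
    rw [hK, hβ, pow_succ, ← pow_mul, mul_comm L M]
    ring
  have hanti : ∀ {a b : ℕ}, a ≤ b → β ^ b ≤ β ^ a := fun h =>
    pow_le_pow_of_le_one hβ0.le hβ1 h
  -- the averaged pointwise bound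
  have hpw : ∀ (J : Finset X) (u : X → W),
      Ex J (fun S => ∏ x ∈ J, amp m (p x (u x) S)) ≤ (1 / 2) ^ K +
        2 * ∑ x ∈ Jᶜ, ∑ w, Ex J (fun S => (∏ x ∈ J, amp m (p x (u x) S)) * amp m (p x w S)) := by
    intro J u
    have h1 := Finset.sum_le_sum fun (S : Cf X B) (_ : S ∈ Finset.univ) =>
      pointwise p K m hm (by omega) hAMN hMUP hp hcon J u S
    rw [Finset.sum_add_distrib, ← Finset.sum_mul, muJ_sum hMUP, one_mul, ← Finset.mul_sum] at h1
    rw [Finset.sum_comm] at h1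
    have h2 : ∀ x ∈ Jᶜ, ∑ S : Cf X B, ∑ w, muJ J S *
        ((∏ x ∈ J, amp m (p x (u x) S)) * amp m (p x w S)) =
        ∑ w, Ex J (fun S => (∏ x ∈ J, amp m (p x (u x) S)) * amp m (p x w S)) := by
      intro x _
      rw [Finset.sum_comm]
      rfl
    rw [Finset.sum_congr rfl h2] at h1
    exact h1
  -- the claim
  have hclaim : ∀ k, k ≤ M → ∃ J : Finset X, J.card = k ∧ ∃ u : X → W,
      β ^ k ≤ Ex J (fun S => ∏ x ∈ J, amp m (p x (u x) S)) := by
    intro k
    induction k with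
    | zero =>
      intro _
      refine ⟨∅, rfl, fun _ => Classical.arbitrary W, ?_⟩
      simp only [Finset.prod_empty, Ex, mul_one, pow_zero]
      rw [muJ_sum hMUP]
    | succ k ih =>
      intro hk
      obtain ⟨J, hJ, u, hu⟩ := ih (by omega)
      have h1 := hpw J u
      have hkM : β ^ M ≤ β ^ k := hanti (by omega)
      have hne : (Jᶜ).Nonempty := by
        rw [← Finset.card_pos, Finset.card_compl, ← hM, hJ]
        omega
      have hex : ∃ x ∈ Jᶜ, ∃ w, 200 * β ^ (k + 1) ≤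
          Ex J (fun S => (∏ x ∈ J, amp m (p x (u x) S)) * amp m (p x w S)) := by
        by_contra h2
        push Not at h2
        have h3 : ∑ x ∈ Jᶜ, ∑ w, Ex J (fun S => (∏ x ∈ J, amp m (p x (u x) S)) *
            amp m (p x w S)) < ∑ x ∈ Jᶜ, ∑ _w : W, 200 * β ^ (k + 1) :=
          Finset.sum_lt_sum_of_nonempty hne fun x hx =>
            Finset.sum_lt_sum_of_nonempty Finset.univ_nonempty fun w _ => h2 x hx w
        rw [Finset.sum_const, Finset.sum_const, nsmul_eq_mul, nsmul_eq_mul, Finset.card_univ] at h3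
        have h4 : ((Jᶜ).card : ℝ) ≤ M := by
          rw [hM]
          exact_mod_cast Finset.card_le_univ _
        have h5 : ((Jᶜ).card : ℝ) * ((Fintype.card W : ℝ) * (200 * β ^ (k + 1))) ≤
            (M : ℝ) * ((Fintype.card W : ℝ) * (200 * β ^ (k + 1))) :=
          mul_le_mul_of_nonneg_right h4 (by positivity)
        have h6 : (M : ℝ) * ((Fintype.card W : ℝ) * (200 * β ^ (k + 1))) =
            800 * (M : ℝ) * Fintype.card W * β * (β ^ k / 4) := by
          rw [pow_succ]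
          ring
        have h7 : 800 * (M : ℝ) * Fintype.card W * β * (β ^ k / 4) ≤ 1 * (β ^ k / 4) :=
          mul_le_mul_of_nonneg_right hβL (by positivity)
        have h8 : 0 < β ^ k := by positivity
        linarith
      obtain ⟨x, hx, w, hw⟩ := hex
      rw [Finset.mem_compl] at hx
      refine ⟨insert x J, by rw [Finset.card_insert_of_notMem hx, hJ], Function.update u x w, ?_⟩
      have h3 : (fun S : Cf X B => ∏ y ∈ insert x J, amp m (p y (Function.update u x w y) S)) =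
          fun S => (∏ x ∈ J, amp m (p x (u x) S)) * amp m (p x w S) := by
        funext S
        rw [Finset.prod_insert hx, Function.update_self, mul_comm]
        congr 1
        refine Finset.prod_congr rfl fun y hy => ?_
        rw [Function.update_of_ne]
        rintro rfl
        exact hx hy
      rw [h3]
      have h4 : ∀ y v, Simp ((2 * 2 ^ H) ^ m) (fun S => amp m (p y v S)) := fun y v =>
        hAMS X B _ _ m (hs y v).1 (hs y v).2
      have h5 := (hSMP X B).2.2.2.2.1 _ _ _ _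
        (simp_prod hSMP ((2 * 2 ^ H) ^ m) J (fun y S => amp m (p y (u y) S)) (fun y => h4 y _))
        (h4 x w)
      have h6 := hCRX X B _ _ J x T h5 hx hTB
      rw [hJ] at h6
      have h7 : ((2 * 2 ^ H : ℝ) ^ m) ^ k * (2 * 2 ^ H) ^ m * (1 / 2) ^ T ≤ β ^ (k + 1) := by
        have h8 : ((2 * 2 ^ H : ℝ) ^ m) ^ k * (2 * 2 ^ H) ^ m = 2 ^ ((1 + H) * m * (k + 1)) := by
          rw [← pow_succ, ← pow_mul, ← pow_succ', ← pow_mul]
          congr 1
          ring
        have h9 : (2 : ℝ) ^ ((1 + H) * m * (k + 1)) ≤ 2 ^ ((1 + H) * m * M) :=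
          pow_le_pow_right₀ (by norm_num) (Nat.mul_le_mul_left _ hk)
        have h10 : (2 : ℝ) ^ ((1 + H) * m * M) * (1 / 2) ^ T = β ^ M := by
          rw [hT, pow_add, ← mul_assoc, ← mul_pow, hβ, ← pow_mul, mul_comm L M]
          norm_num
        rw [h8]
        calc (2 : ℝ) ^ ((1 + H) * m * (k + 1)) * (1 / 2) ^ T
            ≤ 2 ^ ((1 + H) * m * M) * (1 / 2) ^ T :=
              mul_le_mul_of_nonneg_right h9 (by positivity)
          _ = β ^ M := h10
          _ ≤ β ^ (k + 1) := hanti hk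
      linarith
  obtain ⟨J, hJ, u, hu⟩ := hclaim M le_rfl
  have hJu : J = Finset.univ := by
    rw [← Finset.card_eq_iff_eq_univ, hJ, hM]
  have h1 := hpw J u
  rw [hJu, Finset.compl_univ, Finset.sum_empty, mul_zero, add_zero, hKβ] at h1
  rw [hJu] at hu
  have h2 : 0 < β ^ M := by positivity
  linarith

end Pool.Agent.H21.ALG
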